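import Pool.Agent.H27.CAL.Stmts2

set_option synthInstance.maxSize 100000

namespace CAL

theorem cal_plus : PLUSStmt := by
  intro H hH hW t ht
  by_contra hcon
  push Not at hcon
  choose x hx using hcon
  by_cases hc : ∀ k, ∃ n ≥ k, x n ∉ (Finset.range k).image t
  · obtain ⟨k, hk⟩ := hW t ht
    apply hk
    obtain ⟨n, hn, hxn⟩ := hc k
    refine hH _ _ ?_ (hx n)
    intro a ha
    rw [Finset.mem_erase]
    refine ⟨fun h => hxn (h ▸ ha), ?_⟩
    exact Finset.image_subset_image (Finset.range_mono hn) ha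
  · push Not at hc
    obtain ⟨k, hk⟩ := hc
    obtain ⟨m, hm⟩ := hW (fun i => t (i + k)) (fun i j hij => ht (by omega))
    apply hm
    refine hH _ _ ?_ (hx (m + k))
    intro a ha
    rw [Finset.mem_image] at ha
    obtain ⟨i, hi, rfl⟩ := ha
    rw [Finset.mem_range] at hi
    rw [Finset.mem_erase]
    refine ⟨fun h => ?_, Finset.mem_image_of_mem t (Finset.mem_range.2 (by omega))⟩
    have h1 := hk (m + k) (by omega)
    rw [← h, Finset.mem_image] at h1
    obtain ⟨j, hj, hjj⟩ := h1
    rw [Finset.mem_range] at hj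
    have := ht.injective hjj
    omega

end CAL
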