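import Pool.Agent.H27.CAL.Stmts2

set_option synthInstance.maxSize 100000

namespace CAL

theorem cal_sgf : SGFStmt := by
  intro w
  have hinf : ({i | i ∈ w.E2} : Set ℕ).Infinite := w.inf2
  refine ⟨fun γ n => Nat.nth_mem_of_infinite hinf _, fun γ n => ?_, fun γ n γ' n' h => ?_⟩
  · have h1 : Nat.pair γ (n + 1) ≤ Nat.nth (fun i => i ∈ w.E2) (Nat.pair γ (n + 1)) :=
      (Nat.nth_strictMono hinf).le_apply
    have h2 : n + 1 ≤ Nat.pair γ (n + 1) := Nat.right_le_pair _ _
    unfold Wts.sgf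
    omega
  · have h1 := (Nat.nth_strictMono hinf).injective h
    exact (Nat.pair_eq_pair.1 h1).1

end CAL
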