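import Pool.Agent.H27.CAL.Stmts2

set_option synthInstance.maxSize 100000

namespace CAL

variable {𝕜 : Type*} [RCLike 𝕜] {A : Type*} [PartialOrder A] {Y : Type*} [NormedAddCommGroup Y]
  [NormedSpace 𝕜 Y] {τ : TreeLev A}

/-- ranges of consecutive blocks -/
theorem sub_aux {s t : ℕ → ℕ} (h1 : ∀ k, s k < t k) (h2 : ∀ k, t k ≤ s (k + 1)) {a b : ℕ}
    (hab : a < b) : t a ≤ s b := by
  induction b with
  | zero => omega
  | succ b ih =>
    rcases Nat.lt_succ_iff_lt_or_eq.1 hab with h | h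
    · exact (ih h).trans ((h1 b).le.trans (h2 b))
    · subst h
      exact h2 a

theorem cal_sub (D : Dat 𝕜 Y τ) : SUBStmt D := by
  refine ⟨?_, ?_, ?_, ?_⟩
  · intro C x s t j φ h hφ
    refine ⟨fun k => h.ran _, fun k => h.st _, fun k => ?_, fun k => h.nm _, fun k => ?_,
      h.jm.comp hφ, fun k γ hg => h.sm _ _ hg⟩
    · exact sub_aux h.st h.ts (hφ (Nat.lt_succ_self k))
    · have h1 : φ k < φ (k + 1) := hφ (Nat.lt_succ_self k)
      have h2 := h.jt (φ k)
      have h3 := h.jm.monotone (Nat.succ_le_of_lt h1)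
      show t (φ k) < j (φ (k + 1))
      exact lt_of_lt_of_le h2 h3
  · intro C x s t j c h hc
    have hC : ∀ k, 0 ≤ C := fun k => (norm_nonneg _).trans (h.nm k)
    refine ⟨fun k => ⟨?_, ?_⟩, h.st, h.ts, fun k => ?_, h.jt, h.jm, fun k γ hg => ?_⟩
    · rw [map_smul, (h.ran k).1, smul_zero]
    · rw [map_smul, (h.ran k).2]
    · rw [norm_smul]
      calc ‖c k‖ * ‖x k‖ ≤ 1 * C := mul_le_mul (hc k) (h.nm k) (norm_nonneg _) zero_le_one
        _ = C := one_mul C
    · rw [map_smul, norm_smul]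
      calc ‖c k‖ * ‖D.co γ (x k)‖ ≤ 1 * (C * (mm (D.wt γ))⁻¹) :=
            mul_le_mul (hc k) (h.sm k γ hg) (norm_nonneg _) zero_le_one
        _ = C * (mm (D.wt γ))⁻¹ := one_mul _
  · intro x s t φ h hφ
    obtain ⟨h1, h2, h3, C, h4⟩ := h
    exact ⟨fun k => h1 _, fun k => h2 _, fun k => sub_aux h2 h3 (hφ (Nat.lt_succ_self k)), C,
      fun k => h4 _⟩
  · intro C x s t j h
    exact ⟨h.ran, h.st, h.ts, C, h.nm⟩

end CAL
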