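import Pool.Agent.H27.CAL.Stmts2

set_option synthInstance.maxSize 100000

namespace CAL

theorem cal_trcl (K : Type*) [TopologicalSpace K] : TRCLStmt K := by
  intro hM hC x U hU hx
  let _ := TopologicalSpace.metrizableSpaceMetric K
  obtain ⟨e, he, hball⟩ := Metric.isOpen_iff.1 hU x hx
  have hcount : (Set.range fun y : K => dist y x).Countable := Set.countable_range _
  have hne : (Set.Ioo 0 e \ Set.range fun y : K => dist y x).Nonempty := by
    by_contra h
    rw [Set.not_nonempty_iff_eq_empty, Set.sdiff_eq_empty] at h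
    have h3 : (Set.Ioo (0 : ℝ) e).Countable := hcount.mono h
    exact (Cardinal.Real.Ioo_countable_iff.1 h3).not_gt he
  obtain ⟨r, ⟨hr0, hre⟩, hr⟩ := hne
  have heq : Metric.ball x r = Metric.closedBall x r := by
    ext y
    simp only [Metric.mem_ball, Metric.mem_closedBall]
    refine ⟨le_of_lt, fun h => lt_of_le_of_ne h fun hh => hr ⟨y, hh⟩⟩
  refine ⟨Metric.ball x r, ⟨?_, Metric.isOpen_ball⟩, Metric.mem_ball_self hr0, ?_⟩
  · rw [heq]
    exact Metric.isClosed_closedBall
  · exact (Metric.ball_subset_ball hre.le).trans hball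

end CAL
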