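import Pool.Agent.H27.CAL.Stmts2

set_option synthInstance.maxSize 100000

namespace CAL

theorem cal_trcov (K : Type*) [TopologicalSpace K] (hsub : TRSUBStmt K) (hun : TRUNStmt K) :
    TRCOVStmt K := by
  intro V hV hF
  have hcl : ∀ i, IsClopen (disjointed V i) := by
    intro i
    rw [disjointed_eq_inter_compl]
    refine (hV i).inter ?_
    refine Set.Finite.isClopen_biInter (Set.finite_lt_nat i) ?_
    intro j _
    exact (hV j).compl
  have h := hun (disjointed V) (disjoint_disjointed V)
    (fun i => hsub (V i) (disjointed V i) (hcl i) (disjointed_subset V i) (hF i))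
  rwa [iUnion_disjointed] at h

end CAL
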