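import Pool.Agent.H27.CAL.Stmts2

set_option synthInstance.maxSize 100000

namespace CAL

universe u

theorem cal_tree (h1 : ∀ (K : Type u) [TopologicalSpace K], TRALLStmt K)
    (h2 : ∀ (K : Type u) [TopologicalSpace K], TRLEVStmt K) : TREEStmt.{u} := by
  intro K _ hK hM hC
  exact h2 K hC (h1 K hK hM hC)

end CAL
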