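import Pool.Agent.H27.CAL.Stmts2

set_option synthInstance.maxSize 100000

namespace CAL

theorem cal_trlev (K : Type*) [TopologicalSpace K] : TRLEVStmt K := by
  intro hc ⟨r, hr⟩
  obtain ⟨e, he⟩ := hc.exists_injective_nat
  let P : PartialOrder K :=
    { le := r
      le_refl := fun a => hr.refl a (Set.mem_univ a)
      le_trans := fun a b c => hr.trans a b c
      le_antisymm := fun a b => hr.anti a b }
  letI := P
  have hle : ∀ a b : K, a ≤ b ↔ r a b := fun a b => Iff.rfl
  have hlt : ∀ a b : K, a < b → (hr.fin a).toFinset ⊂ (hr.fin b).toFinset := by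
    intro a b hab
    rw [Finset.ssubset_iff_of_subset]
    · refine ⟨b, ?_, ?_⟩
      · simp only [Set.Finite.mem_toFinset, Set.mem_ofPred_eq]
        exact hr.refl b (Set.mem_univ b)
      · simp only [Set.Finite.mem_toFinset, Set.mem_ofPred_eq]
        intro h
        exact absurd ((hle b a).2 h) (not_le_of_gt hab)
    · intro c hcc
      simp only [Set.Finite.mem_toFinset, Set.mem_ofPred_eq] at hcc ⊢
      exact hr.trans c a b hcc ((hle a b).1 hab.le)
  refine ⟨P, ⟨(fun a => ∑ b ∈ (hr.fin a).toFinset, (e b + 1)), ?_, ?_, ?_, ?_, ?_⟩, ?_⟩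
  · intro a
    refine Finset.sum_pos (fun _ _ => Nat.succ_pos _) ⟨a, ?_⟩
    simp only [Set.Finite.mem_toFinset, Set.mem_ofPred_eq]
    exact hr.refl a (Set.mem_univ a)
  · intro a b hab
    exact Finset.sum_lt_sum_of_subset (hlt a b hab).subset
      ((Finset.exists_of_ssubset (hlt a b hab)).choose_spec.1)
      ((Finset.exists_of_ssubset (hlt a b hab)).choose_spec.2) (Nat.succ_pos _)
      (fun _ _ _ => Nat.zero_le _)
  · intro n
    refine Set.Finite.subset ((Set.finite_le_nat n).preimage (he.injOn (s := e ⁻¹' {i | i ≤ n}))) ?_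
    intro a ha
    simp only [Set.mem_ofPred_eq, Set.mem_preimage] at ha ⊢
    have : e a + 1 ≤ ∑ b ∈ (hr.fin a).toFinset, (e b + 1) := by
      refine Finset.single_le_sum (f := fun b => e b + 1) (fun _ _ => Nat.zero_le _) ?_
      simp only [Set.Finite.mem_toFinset, Set.mem_ofPred_eq]
      exact hr.refl a (Set.mem_univ a)
    omega
  · intro a b c hb hc'
    exact hr.tot a b c hb hc'
  · intro f hf
    refine hr.wf f fun n => ?_
    have h := hf (Nat.lt_succ_self n)
    exact ⟨h.le, h.ne⟩
  · intro a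
    exact hr.clop a (Set.mem_univ a)

end CAL
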