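import Pool.Agent.H27.CAL.Stmts2

set_option synthInstance.maxSize 100000

namespace CAL

theorem cal_trsub (K : Type*) [TopologicalSpace K] : TRSUBStmt K := by
  intro V W hW hWV ⟨r, hr⟩
  refine ⟨fun a b => r a b ∧ a ∈ W ∧ b ∈ W, ?_⟩
  refine ⟨?_, ?_, ?_, ?_, ?_, ?_, ?_, ?_⟩
  · exact fun a b h => h.2
  · exact fun a ha => ⟨hr.refl a (hWV ha), ha, ha⟩
  · exact fun a b h1 h2 => hr.anti a b h1.1 h2.1
  · exact fun a b c h1 h2 => ⟨hr.trans a b c h1.1 h2.1, h1.2.1, h2.2.2⟩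
  · intro a
    exact (hr.fin a).subset fun b hb => hb.1
  · intro a b c h1 h2
    rcases hr.tot a b c h1.1 h2.1 with h | h
    · exact Or.inl ⟨h, h1.2.1, h2.2.1⟩
    · exact Or.inr ⟨h, h2.2.1, h1.2.1⟩
  · intro a ha
    have h : {b | r a b ∧ a ∈ W ∧ b ∈ W} = {b | r a b} ∩ W := by
      ext b
      exact ⟨fun h => ⟨h.1, h.2.2⟩, fun h => ⟨h.1, ha, h.2⟩⟩
    rw [h]
    exact (hr.clop a (hWV ha)).inter hW
  · intro f hf
    exact hr.wf f fun n => ⟨(hf n).1.1, (hf n).2⟩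

end CAL
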