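import Pool.Agent.H27.CAL.Stmts2

set_option synthInstance.maxSize 100000

namespace CAL

theorem cal_tris (K : Type*) [TopologicalSpace K] : TRISStmt K := by
  intro hK hM hC C hcl hne
  by_contra hcon
  let _ := TopologicalSpace.metrizableSpaceMetric K
  have hperf : Perfect C := by
    refine ⟨hcl, ?_⟩
    intro x hx
    rw [accPt_iff_nhds]
    intro U hU
    by_contra h
    apply hcon
    obtain ⟨V, hVU, hV, hxV⟩ := mem_nhds_iff.1 hU
    refine ⟨x, hx, V, hV, ?_⟩
    ext y
    constructor
    · intro hy
      by_contra hyx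
      exact h ⟨y, ⟨hVU hy.1, hy.2⟩, hyx⟩
    · rintro rfl
      exact ⟨hxV, hx⟩
  obtain ⟨f, hf, _, hinj⟩ := hperf.exists_nat_bool_injection hne
  have : Countable (ℕ → Bool) := hinj.countable
  obtain ⟨g, hg⟩ := this.exists_injective_nat
  classical
  refine Function.cantor_injective (fun s : Set ℕ => g (fun n => decide (n ∈ s))) ?_
  intro s t hst
  have := hg hst
  ext n
  have h := congrFun this n
  simpa using h

end CAL
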